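import Pool.Agent.Q138.PS.UH
import Pool.Agent.Results.MP_39d40e_nt.NaturalDensities

/-!
# Leigh's maps: all invariant sets at once, along the sequences `⌊α P(n)⌋`

Let `q ≥ 2`. Outside a set of real numbers of Hausdorff dimension at most `q / (q + 1 / (q 2 ^ (q - 1)))` (that is
`8 / 9` for `q = 2`) every `α > 0` has the following property, for all generalised Collatz maps `T` of coprime type with
`∏ |m_i / d| < 1` (not all `|m_i|` equal): for ALL integral polynomials `P` of degree `q` with positive leading coefficient and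
coefficients of size at most `N ^ η` and for ALL invariant sets `S` at once, the proportion of the `n ≤ N` with
`± ⌊α P(n)⌋ ∈ S` differs from the natural density of `S` by at most `ε`.
-/

set_option autoImplicit false

namespace Pool.Agent.Results.MP_39d40e_nt.InvariantSetsAlongPolynomials

open Finset Filter Topology
open Pool.Agent.Q138.PS
open Pool.Agent.Results.MP_39d40e_nt.NaturalDensities (T Invariant HasDensity)

open Classical in
/-- the number of the `1 ≤ n ≤ N` for which `σ ⌊α P(n)⌋` is in `S` -/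
noncomputable def count (S : Set ℤ) (σ : ℤ) (α : ℝ) (P : Polynomial ℤ) (N : ℕ) : ℕ :=
  ((Icc 1 N).filter fun n : ℕ => σ * (⌊α * ((P.eval (n : ℤ) : ℤ) : ℝ)⌋₊ : ℤ) ∈ S).card

theorem card_inst {p p' : ℕ → Prop} (i1 : DecidablePred p) (i2 : DecidablePred p') (h : ∀ n, p n ↔ p' n)
    (s : Finset ℕ) : (s.filter p).card = (s.filter p').card := by
  congr 1
  ext n
  simp only [mem_filter, h]

theorem count_eq (S : Set ℤ) (σ : ℤ) (α : ℝ) (P : Polynomial ℤ) (N : ℕ) :
    (count S σ α P N : ℝ) = cnP (fun n => σ * (n : ℤ) ∈ S) α P N := by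
  classical
  unfold count cnP cn
  exact congrArg _ (card_inst _ _ (fun n => Iff.rfl) _)

/-- the coefficients given by a list -/
def rl (l : List ℤ) (j : ℕ) : ℤ := l.getD j 0

theorem rl_ofFn (d : ℕ) (r : ℕ → ℤ) (j : ℕ) (hj : j < d) : rl (List.ofFn fun i : Fin d => r i) j = r j := by
  unfold rl
  rw [List.getD_eq_getElem _ _ (by simpa using hj), List.getElem_ofFn]

theorem T_congr {d : ℕ} (hd : 2 ≤ d) {m m' r r' : ℕ → ℤ} (h : ∀ j < d, m j = m' j) (h' : ∀ j < d, r j = r' j) :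
    T d m r = T d m' r' := by
  funext n
  unfold T
  have h0 : (n % (d : ℤ)).toNat < d := by
    have h1 := Int.emod_nonneg n (show (d : ℤ) ≠ 0 by omega)
    have h2 := Int.emod_lt_of_pos n (show (0 : ℤ) < d by omega)
    omega
  rw [h _ h0, h' _ h0]

/-- the maps of coprime type with `∏ |m_i / d| < 1`, not all `|m_i|` equal -/
structure Admissible (d : ℕ) (m r : ℕ → ℤ) : Prop where
  two_le : 2 ≤ d
  coprime : ∀ i < d, IsCoprime (m i) (d : ℤ)
  offset : ∀ i < d, r i ≡ i * m i [ZMOD d]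
  contracting : ∏ i ∈ range d, |(m i : ℝ) / d| < 1
  unequal : ∃ i < d, ∃ j < d, |m i| ≠ |m j|

theorem adm_congr {d : ℕ} {m m' r r' : ℕ → ℤ} (h : ∀ j < d, m j = m' j) (h' : ∀ j < d, r j = r' j)
    (ha : Admissible d m r) : Admissible d m' r' where
  two_le := ha.two_le
  coprime := fun i hi => by
    rw [← h i hi]
    exact ha.coprime i hi
  offset := fun i hi => by
    rw [← h i hi, ← h' i hi]
    exact ha.offset i hi
  contracting := by
    refine lt_of_eq_of_lt (Finset.prod_congr rfl fun i hi => ?_) ha.contracting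
    rw [h i (mem_range.1 hi)]
  unequal := by
    obtain ⟨i, hi, j, hj, hij⟩ := ha.unequal
    exact ⟨i, hi, j, hj, by rwa [← h i hi, ← h j hj]⟩

/-- **Theorem.** Let `q ≥ 2`. There is a set `F` of Hausdorff dimension at most `q / (q + 1 / (q 2 ^ (q - 1)))` such that for
each `α > 0` outside `F`, all `d` and all maps `T(x) = (m_i x - r_i) / d` (`x ≡ i mod d`) of coprime type with `∏ |m_i / d| < 1` and
not all `|m_i|` equal, both signs `σ` and all `ε > 0` there is `η > 0` such that for all large `N`, for ALL `P ∈ ℤ[X]` of degree `q`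
with positive leading coefficient and coefficients of size at most `N ^ η` and for ALL invariant sets `S`: the set `S` has a natural
density `a` on the side `σ`, and the number of the `n ≤ N` with `σ ⌊α P(n)⌋ ∈ S` differs from `a N` by at most `ε N`. -/
theorem result (q : ℕ) (hq : 2 ≤ q) :
    ∃ F : Set ℝ, dimH F ≤ ENNReal.ofReal (q / (q + 1 / ((q : ℝ) * 2 ^ (q - 1)))) ∧ ∀ α : ℝ, 0 < α → α ∉ F →
      ∀ (d : ℕ) (m r : ℕ → ℤ), Admissible d m r → ∀ σ : ℤ, (σ = 1 ∨ σ = -1) → ∀ ε : ℝ, 0 < ε → ∃ η : ℝ, 0 < η ∧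
      ∀ᶠ N : ℕ in atTop, ∀ P : Polynomial ℤ, P.natDegree = q → 0 < P.leadingCoeff →
        (∀ j, |((P.coeff j : ℤ) : ℝ)| ≤ (N : ℝ) ^ η) → ∀ S : Set ℤ, Invariant d m r S →
        ∃ a : ℝ, HasDensity S σ a ∧ |(count S σ α P N : ℝ) - a * N| ≤ ε * N := by
  classical
  have hseed : ∀ {d : ℕ} {m r : ℕ → ℤ}, Admissible d m r →
      (∀ S, InvSet (T d m r) S → ∀ σ : ℤ, (σ = 1 ∨ σ = -1) → ∃ a, SideDensity S σ a) ∧
      (∀ S : ℕ → Set ℤ, (∀ n, InvSet (T d m r) (S n)) → (∀ n n', n ≠ n' → Disjoint (S n) (S n')) →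
        ∀ σ : ℤ, (σ = 1 ∨ σ = -1) → ∀ δ : ℕ → ℝ, (∀ n, SideDensity (S n) σ (δ n)) →
        Summable δ ∧ SideDensity (⋃ n, S n) σ (∑' n, δ n)) := by
    intro d m r ha
    obtain ⟨h1, h2, -⟩ := Pool.Agent.Results.MP_39d40e_nt.NaturalDensities.result d ha.two_le m r ha.coprime ha.offset
      ha.contracting ha.unequal
    refine ⟨fun S hS σ hσ => ?_, h2⟩
    obtain ⟨a, b, hab, hab', -⟩ := h1 S hS
    rcases hσ with rfl | rfl
    · exact ⟨a, hab⟩
    · exact ⟨b, hab'⟩
  obtain ⟨F, hF, h⟩ := inv_union (ι := ℕ × List ℤ × List ℤ) q hq (fun i => T i.1 (rl i.2.1) (rl i.2.2))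
    (fun i => Admissible i.1 (rl i.2.1) (rl i.2.2)) (fun i hi => hseed hi)
  refine ⟨F, hF, fun α hα hαF d m r ha σ hσ ε hε => ?_⟩
  have e1 : ∀ j < d, m j = rl (List.ofFn fun i : Fin d => m i) j := fun j hj => (rl_ofFn d m j hj).symm
  have e2 : ∀ j < d, r j = rl (List.ofFn fun i : Fin d => r i) j := fun j hj => (rl_ofFn d r j hj).symm
  obtain ⟨η, hη, h1⟩ := h α hα hαF (d, List.ofFn (fun i : Fin d => m i), List.ofFn (fun i : Fin d => r i))
    (adm_congr e1 e2 ha) σ hσ ε hε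
  refine ⟨η, hη, ?_⟩
  filter_upwards [h1] with N hN
  intro P hdeg hlead hco S hS
  obtain ⟨a, hSa⟩ := (hseed ha).1 S hS σ hσ
  refine ⟨a, hSa, ?_⟩
  rw [count_eq]
  refine hN P hdeg hlead hco S ?_ a hSa
  show InvSet (T d (rl (List.ofFn fun i : Fin d => m i)) (rl (List.ofFn fun i : Fin d => r i))) S
  rw [← T_congr ha.two_le e1 e2]
  exact hS

end Pool.Agent.Results.MP_39d40e_nt.InvariantSetsAlongPolynomials
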