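import Mathlib
import Pool.Agent.Q205.RP.Window2

/-!
# Leigh's first assertion with noise on sparse scales only

`T` is the generalized Collatz map `x ↦ (m i * x - r i) / d` for `x ≡ i (mod d)`. Let `W` be a set
of integers which contains, for arbitrarily large `X`, all `x` with `X ≤ |x| ≤ X ^ β`. The map `U`
is `T` outside `W`, and `U x = T (x + ω x)` on `W`, with independent uniform `ω x` in
`{0, …, d-1}`. If `∏ |m i / d| < 1` and `β` is larger than a constant given by the multipliers,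
then almost surely every trajectory of `U` cycles.
-/

set_option autoImplicit false

open MeasureTheory Finset Filter

namespace Pool.Agent.Results.MP_39d40e_nt.NoiseOnSparseScales

/-- The residue of `x` modulo `d`. -/
def residue (d : ℕ) [NeZero d] (x : ℤ) : Fin d :=
  ⟨(x % (d : ℤ)).toNat, by
    have h1 : (0 : ℤ) < d := by exact_mod_cast NeZero.pos d
    have h2 := Int.emod_nonneg x h1.ne'
    have h3 := Int.emod_lt_of_pos x h1
    omega⟩

/-- The generalized Collatz map: `T x = (m i * x - r i) / d` for `x ≡ i (mod d)`. -/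
def T (d : ℕ) [NeZero d] (m r : Fin d → ℤ) (x : ℤ) : ℤ :=
  (m (residue d x) * x - r (residue d x)) / (d : ℤ)

open Classical in
/-- The map perturbed at the places of `W`: there the argument `x` is replaced by `x + ω x`, with
`ω x` in `{0, …, d-1}`. -/
noncomputable def U (d : ℕ) [NeZero d] (m r : Fin d → ℤ) (W : Set ℤ) (ω : ℤ → Fin d) (x : ℤ) : ℤ :=
  if x ∈ W then T d m r (x + ((ω x : ℕ) : ℤ)) else T d m r x

/-- The law of independent uniform choices from `{0, …, d-1}`, one for each integer. -/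
noncomputable def noise (d : ℕ) [NeZero d] : Measure (ℤ → Fin d) :=
  Measure.infinitePi (fun _ : ℤ => (PMF.uniformOfFintype (Fin d)).toMeasure)

/-- The number `Λ` of Leigh's criterion in the relatively prime case. -/
noncomputable def Lam (d : ℕ) (m : Fin d → ℤ) : ℝ := ∏ i, (|(m i : ℝ)| / d) ^ ((1 : ℝ) / d)

theorem lam_eq {d : ℕ} [NeZero d] (m : Fin d → ℤ) :
    Lam d m = (∏ i, (|(m i : ℝ)| / d)) ^ ((1 : ℝ) / d) := by
  unfold Lam
  rw [Real.finsetProd_rpow _ _ (fun i _ => by positivity)]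

theorem result (d : ℕ) [NeZero d] (m r : Fin d → ℤ) (hm : ∀ i, m i ≠ 0)
    (hr : ∀ i : Fin d, (d : ℤ) ∣ m i * ((i : ℕ) : ℤ) - r i) :
    (Lam d m < 1 → ∃ θ : ℝ, 0 < θ ∧ θ ≤ 1 ∧ ∑ i, (|(m i : ℝ)| / d) ^ θ < d) ∧
    ∀ θ β : ℝ, 0 < θ → ∑ i, (|(m i : ℝ)| / d) ^ θ < d → 1 + 1 / θ < β →
      ∀ W : Set ℤ, (∀ M : ℕ, ∃ X : ℕ, M ≤ X ∧ ∀ x : ℤ, (X : ℝ) ≤ |(x : ℝ)| →
        |(x : ℝ)| ≤ (X : ℝ) ^ β → x ∈ W) →
      ∀ᵐ ω ∂(noise d), ∀ x : ℤ, ∃ k p : ℕ, 1 ≤ p ∧
        (U d m r W ω)^[k + p] x = (U d m r W ω)^[k] x := by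
  have hd0 : (0 : ℝ) < d := by
    have := NeZero.pos d
    exact_mod_cast this
  constructor
  · intro hlam
    have ha : ∀ i, (0 : ℝ) < |(m i : ℝ)| / d := fun i =>
      div_pos (abs_pos.2 (by exact_mod_cast hm i)) hd0
    apply Q205.RP.exists_exponent (fun i => |(m i : ℝ)| / d) ha
    by_contra hcon
    rw [not_lt] at hcon
    rw [lam_eq] at hlam
    have := Real.one_le_rpow hcon (show (0 : ℝ) ≤ 1 / d by positivity)
    linarith
  · intro θ β hθ hsum hβ W hW
    have hG := Q205.RP.lin_gc m r hr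
    have h := Q205.RP.window_ae' _ hm hG θ β hθ hsum hβ W hW
    change ∀ᵐ ω ∂(Q205.RP.P d), _
    filter_upwards [h] with ω hω x
    obtain ⟨H, hH⟩ := hω x
    exact Q205.RP.cycles_of_bounded _ x H hH

end Pool.Agent.Results.MP_39d40e_nt.NoiseOnSparseScales
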