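import Mathlib
import Pool.Agent.Q277.PC.Cyc

set_option autoImplicit false

/-!
# Leigh's conjectures for prime moduli

`T`, `P`, `Data`, `Class`, `Lam`, `S` are the map, the transition probabilities, the admissible
data, the finite closed communicating classes with their stationary distribution, the number `Λ_C`
and the union `S_C`, as in the library file `Pool.Agent.H319R2.LeighBridge`; a state `(j, k)` is
the class of `j` modulo `d k`. `succ d e B` is the number `d / gcd (k d_i, d)` of successors of the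
state `B = (j, k)`, `ClosedPath d m r e C p γ` says that `γ 0 → γ 1 → … → γ p = γ 0` is a closed
path of length `p ≥ 1` of Leigh's chain in the class `C`, and `pathProd d m p γ` is the product of
the numbers `|m_i| / d` along the path.
-/

namespace Pool.Agent.Results.MP_39d40e_nt.PrimeModulus

open Finset Filter Topology Pool.Agent.H319R2.Leigh Pool.Agent.W44.LM Pool.Agent.Q277.PC

/-- the generalised Collatz map with the data `m'_i`, `r'_i`, `0 ≤ i < d`:
`x ↦ (m'_i x - r'_i) / d` for `x ≡ i mod d` -/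
def Tc (d : ℕ) (m' r' : ℕ → ℤ) (x : ℤ) : ℤ := (m' (x % d).toNat * x - r' (x % d).toNat) / d

/-- the trajectory of `x` under `f` is eventually periodic -/
def Cycles (f : ℤ → ℤ) (x : ℤ) : Prop := ∃ n p : ℕ, 0 < p ∧ f^[n + p] x = f^[n] x

/-- `c` is a cycle of `f` -/
def IsCycle (f : ℤ → ℤ) (c : Finset ℤ) : Prop :=
  ∃ x : ℤ, ∃ p : ℕ, 1 ≤ p ∧ f^[p] x = x ∧ c = (range p).image (fun j => f^[j] x)

/-- `A` is invariant under `f`: `x ∈ A` if and only if `f x ∈ A` -/
def Invariant (f : ℤ → ℤ) (A : Set ℤ) : Prop := ∀ x : ℤ, x ∈ A ↔ f x ∈ A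

/-- `A` has natural density `δ` on the side `σ` (`σ = 1`: positive integers, `σ = -1`: negative
integers): `#{x ∈ A : 1 ≤ σ x ≤ N} / N → δ`. -/
def HasDensity (A : Set ℤ) (σ : ℤ) (δ : ℝ) : Prop :=
  Tendsto (fun N : ℕ => (Set.ncard {x : ℤ | x ∈ A ∧ 1 ≤ σ * x ∧ σ * x ≤ N} : ℝ) / N) atTop (𝓝 δ)

/-- **Leigh's conjectures for prime moduli.** Let `C` be a finite closed communicating class of
Leigh's chain of a generalised Collatz map `T` modulo `d`, where `d` is a prime number, or where `d`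
is arbitrary and every state of `C` has one or `d` successors.

(1) If some state of `C` has more than one successor, then `S_C` consists of all integers and `T` is
accelerated by a map `T'` of coprime type: `T' x` is `T^ν(i) x`, `ν(i) ≥ 1`, for `x ≡ i mod d`,
`T'` is given by multipliers `m'_i` with `gcd (m'_i, d) = 1`, the product of the `|m'_i / d|` is
`Λ_C ^ κ` with `κ > 0`, and the trajectory of `x` under `T` cycles if and only if the one under `T'`
does. So both conjectures for `C` are equivalent to those for the map `T'` of coprime type.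

(2) If `Λ_C < 1`, then `S_C` consists of all integers, and
 * there are `c > 0` and `K` such that for all `X, y ≥ 1` at most `K X / y ^ c` of the integers `x`
   with `|x| ≤ X` have a trajectory that never enters `[-y, y]`;
 * there are `η < 1` and `K` such that every set of integers in `[-X, X]` with pairwise disjoint
   trajectories has at most `K X ^ η` elements, for all `X ≥ 1`;
 * if `C` has a closed path with product of the `|m_i| / d` greater than `1`, then every set of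
   integers invariant under `T` has a natural density on each side, and these densities are
   countably additive on disjoint invariant sets.

(3) If `Λ_C > 1`, then there are `η < 1` and `K` such that for all `X ≥ 1` at most `K X ^ η` cycles
are contained in `S_C ∩ [-X, X]`. -/
theorem result (d : ℕ) (m r b : ℤ → ℤ) (e : ℤ → ℕ) (D : Data d m r b e) (C : Finset (ℤ × ℕ))
    (ρ : ℤ × ℕ → ℝ) (hC : Class d m r e C ρ)
    (hp : d.Prime ∨ ∀ B ∈ C, succ d e B = 1 ∨ succ d e B = d) :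
    ((∃ B ∈ C, succ d e B ≠ 1) → S d C = Set.univ ∧
      ∃ (m' r' : ℕ → ℤ) (ν : ℕ → ℕ) (κ : ℝ), 0 < κ ∧
        (∀ i < d, IsCoprime (m' i) (d : ℤ)) ∧ (∀ i < d, r' i ≡ i * m' i [ZMOD d]) ∧
        (∀ i, 1 ≤ ν i) ∧ (∏ i ∈ range d, |(m' i : ℝ) / d|) = Lam d m C ρ ^ κ ∧
        (∀ x : ℤ, Tc d m' r' x = (T d m r)^[ν (x % d).toNat] x) ∧
        (∀ x : ℤ, Cycles (T d m r) x ↔ Cycles (Tc d m' r') x)) ∧
    (Lam d m C ρ < 1 → S d C = Set.univ ∧
      (∃ c K : ℝ, 0 < c ∧ ∀ X y : ℝ, 1 ≤ X → 1 ≤ y →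
        (Set.ncard {x : ℤ | |(x : ℝ)| ≤ X ∧ ∀ n : ℕ, y < |(((T d m r)^[n] x : ℤ) : ℝ)|} : ℝ) ≤
          K * X / y ^ c) ∧
      (∃ η K : ℝ, 0 < η ∧ η < 1 ∧ ∀ X : ℝ, 1 ≤ X → ∀ F : Finset ℤ, (∀ x ∈ F, |(x : ℝ)| ≤ X) →
        (∀ x ∈ F, ∀ y ∈ F, x ≠ y → ∀ a b : ℕ, (T d m r)^[a] x ≠ (T d m r)^[b] y) →
        (F.card : ℝ) ≤ K * X ^ η) ∧
      ((∃ p γ, ClosedPath d m r e C p γ ∧ 1 < pathProd d m p γ) →
        (∀ A : Set ℤ, Invariant (T d m r) A → ∀ σ : ℤ, (σ = 1 ∨ σ = -1) →
          ∃ δ : ℝ, HasDensity A σ δ) ∧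
        (∀ A : ℕ → Set ℤ, (∀ n, Invariant (T d m r) (A n)) →
          (∀ n n', n ≠ n' → Disjoint (A n) (A n')) → ∀ σ : ℤ, (σ = 1 ∨ σ = -1) →
          ∀ δ : ℕ → ℝ, (∀ n, HasDensity (A n) σ (δ n)) →
            Summable δ ∧ HasDensity (⋃ n, A n) σ (∑' n, δ n)))) ∧
    (1 < Lam d m C ρ → ∃ η K : ℝ, 0 < η ∧ η < 1 ∧ ∀ X : ℝ, 1 ≤ X →
      ({c : Finset ℤ | IsCycle (T d m r) c ∧ ∀ x ∈ c, x ∈ S d C ∧ |(x : ℝ)| ≤ X}.ncard : ℝ) ≤
        K * X ^ η) := by
  have hd2 := D.two_le
  have hpure : ∀ B ∈ C, succ d e B = 1 ∨ succ d e B = d := by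
    rcases hp with h | h
    · intro B _
      exact (Nat.dvd_prime h).1 (succ_dvd D B)
    · exact h
  have hLp := Lam_pos D (C := C) (ρ := ρ)
  have hacc : ∀ (m' r' : ℕ → ℤ) (ν : ℕ → ℕ), (∀ i, 1 ≤ ν i) →
      (∀ x : ℤ, T1 d m' r' x = (T d m r)^[ν (x % d).toNat] x) →
      ∀ x : ℤ, ∃ k : ℕ, 1 ≤ k ∧ T1 d m' r' x = (T d m r)^[k] x :=
    fun m' r' ν h1 h2 x => ⟨_, h1 _, h2 x⟩
  refine ⟨?_, ?_, ?_⟩
  · rintro ⟨G, hG, hG1⟩
    obtain ⟨hS, m', r', ν, κ, hκ, hm, hr, hν, hT, hL, -, -⟩ :=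
      reduction D hC hpure hG ((hpure G hG).resolve_left hG1)
    exact ⟨hS, m', r', ν, κ, hκ, hm, hr, hν, hL, hT, fun x => cycles_iff (hacc m' r' ν hν hT) x⟩
  · intro hL1
    have hex : ∃ G ∈ C, succ d e G ≠ 1 := by
      by_contra hcon
      push Not at hcon
      have := one_le_Lam D hC hcon
      linarith
    obtain ⟨G, hG, hG1⟩ := hex
    obtain ⟨hS, m', r', ν, κ, hκ, hm, hr, hν, hT, hL, hbig, -⟩ :=
      reduction D hC hpure hG ((hpure G hG).resolve_left hG1)
    have hA := hacc m' r' ν hν hT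
    have hL' : ∏ i ∈ range d, |(m' i : ℝ) / d| < 1 := by
      rw [hL]
      exact Real.rpow_lt_one hLp.le hL1 hκ
    refine ⟨hS, ?_, ?_, ?_⟩
    · obtain ⟨c, K, hc, hK, h⟩ := power hd2 hm hr hL'
      refine ⟨c, K, hc, fun X y hX hy => ?_⟩
      refine le_trans ?_ (h X y hX hy)
      have hsub : {x : ℤ | |(x : ℝ)| ≤ X ∧ ∀ n : ℕ, y < |(((T d m r)^[n] x : ℤ) : ℝ)|} ⊆
          {x : ℤ | |(x : ℝ)| ≤ X ∧ ∀ n : ℕ, y < |(((T1 d m' r')^[n] x : ℤ) : ℝ)|} := by
        rintro x ⟨h1, h2⟩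
        refine ⟨h1, fun n => ?_⟩
        obtain ⟨k, -, hk⟩ := iter_accel hA n x
        rw [hk]
        exact h2 k
      exact_mod_cast Set.ncard_le_ncard hsub (fin_ball X _)
    · obtain ⟨η, K, hη, hη1, hK, h⟩ := unrelated hd2 hm hr hL'
      refine ⟨η, K, hη, hη1, fun X hX F hF hne => h X hX F hF ?_⟩
      intro x hx y hy hxy a b
      obtain ⟨k, -, hk⟩ := iter_accel hA a x
      obtain ⟨l, -, hl⟩ := iter_accel hA b y
      rw [hk, hl]
      exact hne x hx y hy hxy k l
    · intro hpath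
      obtain ⟨i, hi, hi2⟩ := hbig hpath
      have hj : ∃ j < d, |m' j| < (d : ℤ) := by
        by_contra hcon
        push Not at hcon
        have hdR : (0 : ℝ) < d := by exact_mod_cast (by omega : 0 < d)
        have : 1 ≤ ∏ i ∈ range d, |(m' i : ℝ) / d| := by
          rw [← prod_const_one (s := range d) (M := ℝ)]
          apply prod_le_prod (fun _ _ => zero_le_one)
          intro j hj
          rw [abs_div, abs_of_pos hdR, le_div_iff₀ hdR, one_mul]
          have := hcon j (mem_range.1 hj)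
          exact_mod_cast this
        linarith
      obtain ⟨j, hj, hj2⟩ := hj
      have hne : ∃ i < d, ∃ j < d, |m' i| ≠ |m' j| := ⟨i, hi, j, hj, by omega⟩
      obtain ⟨h1, h2, -⟩ := NaturalDensities.result d hd2 m' r' hm hr hL' hne
      have hinv : ∀ A : Set ℤ, Invariant (T d m r) A → NaturalDensities.Invariant d m' r' A := by
        intro A hA1 x
        have key : ∀ k : ℕ, ∀ x : ℤ, x ∈ A ↔ (T d m r)^[k] x ∈ A := by
          intro k
          induction k with
          | zero => intro x; exact Iff.rfl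
          | succ k ih =>
            intro x
            rw [Function.iterate_succ_apply']
            exact (ih x).trans (hA1 _)
        obtain ⟨k, -, hk⟩ := hA x
        change x ∈ A ↔ T1 d m' r' x ∈ A
        rw [hk]
        exact key k x
      refine ⟨?_, ?_⟩
      · intro A hA1 σ hσ
        obtain ⟨a, b', ha, hb, -⟩ := h1 A (hinv A hA1)
        rcases hσ with rfl | rfl
        · exact ⟨a, ha⟩
        · exact ⟨b', hb⟩
      · intro A hA1 hdis σ hσ δ hδ
        exact h2 A (fun n => hinv _ (hA1 n)) hdis σ hσ δ hδ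
  · intro hL1
    by_cases hdet : ∀ B ∈ C, succ d e B = 1
    · obtain ⟨K, hK, h⟩ := det_cycles D hC hdet hL1
      refine ⟨1 / 2, K, by norm_num, by norm_num, fun X hX => ?_⟩
      have h5 : (1 : ℝ) ≤ X ^ (1 / 2 : ℝ) := Real.one_le_rpow hX (by norm_num)
      exact (h X hX).trans (le_mul_of_one_le_right hK.le h5)
    · push Not at hdet
      obtain ⟨G, hG, hG1⟩ := hdet
      obtain ⟨hS, m', r', ν, κ, hκ, hm, hr, hν, hT, hL, hbig, -⟩ :=
        reduction D hC hpure hG ((hpure G hG).resolve_left hG1)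
      have hA := hacc m' r' ν hν hT
      have hL' : 1 < ∏ i ∈ range d, |(m' i : ℝ) / d| := by
        rw [hL]
        exact Real.one_lt_rpow hL1 hκ
      obtain ⟨η, K, hη, hη1, hK, h⟩ := expanding hd2 hm hr hL'
      refine ⟨η, K, hη, hη1, fun X hX => le_trans ?_ (h X hX)⟩
      have h1 := cycles_le hA X
      have h2 : {c : Finset ℤ | IsCycle (T d m r) c ∧ ∀ x ∈ c, x ∈ S d C ∧ |(x : ℝ)| ≤ X} =
          {c : Finset ℤ | ExpandingCycles.IsCycle (T d m r) c ∧ ∀ x ∈ c, |(x : ℝ)| ≤ X} := by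
        ext c
        constructor
        · rintro ⟨h3, h4⟩
          exact ⟨h3, fun x hx => (h4 x hx).2⟩
        · rintro ⟨h3, h4⟩
          exact ⟨h3, fun x hx => ⟨by rw [hS]; trivial, h4 x hx⟩⟩
      rw [h2]
      exact_mod_cast h1

end Pool.Agent.Results.MP_39d40e_nt.PrimeModulus
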