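import Mathlib
import Pool.Agent.Q205.RP.Expand2

/-!
# Leigh's dichotomy for almost every perturbation of a map of relatively prime type

`T` is the generalized Collatz map `x ↦ (m i * x - r i) / d` for `x ≡ i (mod d)`, with all `m i`
prime to `d`. Its Leigh chain has the single class `{B(0,d), …, B(d-1,d)}`, with `p i = 1 / d` and
`Λ = ∏ |m i / d| ^ (1 / d)`. For `ω : ℤ → {0, …, d-1}` the perturbed map is `x ↦ T (x + ω x)`.
-/

set_option autoImplicit false

open MeasureTheory Finset Filter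

namespace Pool.Agent.Results.MP_39d40e_nt.RandomEnvironmentDichotomy

/-- The residue of `x` modulo `d`. -/
def residue (d : ℕ) [NeZero d] (x : ℤ) : Fin d :=
  ⟨(x % (d : ℤ)).toNat, by
    have h1 : (0 : ℤ) < d := by exact_mod_cast NeZero.pos d
    have h2 := Int.emod_nonneg x h1.ne'
    have h3 := Int.emod_lt_of_pos x h1
    omega⟩

/-- The generalized Collatz map: `T x = (m i * x - r i) / d` for `x ≡ i (mod d)`. -/
def T (d : ℕ) [NeZero d] (m r : Fin d → ℤ) (x : ℤ) : ℤ :=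
  (m (residue d x) * x - r (residue d x)) / (d : ℤ)

/-- The perturbed map: the argument `x` is replaced by `x + ω x`, with `ω x` in
`{0, …, d-1}`. -/
def U (d : ℕ) [NeZero d] (m r : Fin d → ℤ) (ω : ℤ → Fin d) (x : ℤ) : ℤ :=
  T d m r (x + ((ω x : ℕ) : ℤ))

/-- The law of independent uniform choices from `{0, …, d-1}`, one for each integer. -/
noncomputable def noise (d : ℕ) [NeZero d] : Measure (ℤ → Fin d) :=
  Measure.infinitePi (fun _ : ℤ => (PMF.uniformOfFintype (Fin d)).toMeasure)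

/-- The number `Λ` of Leigh's criterion in the relatively prime case. -/
noncomputable def Lam (d : ℕ) (m : Fin d → ℤ) : ℝ := ∏ i, (|(m i : ℝ)| / d) ^ ((1 : ℝ) / d)

theorem lam_eq {d : ℕ} [NeZero d] (m : Fin d → ℤ) :
    Lam d m = ((∏ i, |(m i : ℝ)|) / (d : ℝ) ^ d) ^ ((1 : ℝ) / d) := by
  have hd : (0 : ℝ) < d := by
    have := NeZero.pos d
    exact_mod_cast this
  unfold Lam
  rw [Real.finsetProd_rpow _ _ (fun i _ => by positivity), Finset.prod_div_distrib,
    Finset.prod_const, card_univ, Fintype.card_fin]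

theorem diverges_of_not_closes (f : ℤ → ℤ) {x : ℤ} (h : ¬ Q205.RP.Closes f x) :
    Tendsto (fun n : ℕ => |f^[n] x|) atTop atTop := by
  have hinj : Function.Injective (fun n : ℕ => f^[n] x) := by
    intro i j hij
    by_contra hne
    rcases lt_or_gt_of_ne hne with h1 | h1
    · exact h ⟨i, j, h1, hij⟩
    · exact h ⟨j, i, h1, hij.symm⟩
  have h1 := hinj.tendsto_cofinite
  rw [Nat.cofinite_eq_atTop, Int.cofinite_eq] at h1
  have h2 : Tendsto (fun y : ℤ => |y|) (atBot ⊔ atTop) atTop :=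
    Filter.tendsto_sup.2 ⟨tendsto_abs_atBot_atTop, tendsto_abs_atTop_atTop⟩
  exact h2.comp h1

theorem result (d : ℕ) [NeZero d] (hd : 2 ≤ d) (m r : Fin d → ℤ)
    (hcop : ∀ i, IsCoprime (m i) (d : ℤ))
    (hr : ∀ i : Fin d, (d : ℤ) ∣ m i * ((i : ℕ) : ℤ) - r i) :
    (Lam d m < 1 → ∀ᵐ ω ∂(noise d), ∃ K : ℝ, ∀ x : ℤ, ∃ k p : ℕ, 1 ≤ p ∧
      ((k + p : ℕ) : ℝ) ≤ K * Real.log (2 + |(x : ℝ)|) ∧
      (U d m r ω)^[k + p] x = (U d m r ω)^[k] x) ∧
    (1 < Lam d m → ∃ c : ℝ, 0 < c ∧ ∀ᵐ ω ∂(noise d), ∃ K : ℝ, ∀ X : ℕ,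
      ({x : ℤ | |x| ≤ X ∧ ¬ Tendsto (fun n : ℕ => |(U d m r ω)^[n] x|) atTop atTop}.ncard : ℝ) ≤
        K * (2 + (X : ℝ)) ^ (1 - c)) := by
  have hd0 : (0 : ℝ) < d := by
    have := NeZero.pos d
    exact_mod_cast this
  have hG := Q205.RP.lin_gc m r hr
  have hU : ∀ ω, Q205.RP.Tn (fun (x : ℤ) (c : Fin d) => Q205.RP.gc m r (x + ((c : ℕ) : ℤ))) ω =
      U d m r ω := fun ω => rfl
  have hm0 : ∀ i, m i ≠ 0 := fun i h => by
    have h1 := hcop i
    rw [h, isCoprime_zero_left, Int.isUnit_iff] at h1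
    omega
  have hprod0 : 0 < ∏ i, |(m i : ℝ)| :=
    Finset.prod_pos (fun i _ => abs_pos.2 (by exact_mod_cast hm0 i))
  constructor
  · intro hlam
    rw [lam_eq] at hlam
    have hprod : ∏ i, |(m i : ℝ)| < (d : ℝ) ^ d := by
      by_contra hcon
      rw [not_lt] at hcon
      have : 1 ≤ ((∏ i, |(m i : ℝ)|) / (d : ℝ) ^ d) ^ ((1 : ℝ) / d) := by
        apply Real.one_le_rpow _ (by positivity)
        rwa [le_div_iff₀ (by positivity), one_mul]
      linarith
    filter_upwards [Q205.RP.main_contracting _ hm0 hG hprod] with ω hω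
    obtain ⟨K, hK⟩ := hω
    refine ⟨K, fun x => ?_⟩
    obtain ⟨i, j, hij, h4, h5⟩ := hK x
    rw [hU] at h5
    refine ⟨i, j - i, by omega, ?_, ?_⟩
    · rw [show i + (j - i) = j by omega]
      exact h4
    · rw [show i + (j - i) = j by omega]
      exact h5.symm
  · intro hlam
    rw [lam_eq] at hlam
    have hprod : (d : ℝ) ^ d < ∏ i, |(m i : ℝ)| := by
      by_contra hcon
      rw [not_lt] at hcon
      have : ((∏ i, |(m i : ℝ)|) / (d : ℝ) ^ d) ^ ((1 : ℝ) / d) ≤ 1 := by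
        apply Real.rpow_le_one (by positivity) _ (by positivity)
        rwa [div_le_one (by positivity)]
      linarith
    obtain ⟨θ, C, hθ, hθ1, hC, h⟩ := Q205.RP.main_expanding _ hd hcop
      (by linarith [Q205.RP.RR_ge m r]) hG hprod
    refine ⟨θ / 2, by positivity, ?_⟩
    have hae := Q205.RP.count_ae (μ := Q205.RP.P d) _ hC hθ hθ1 h
    change ∀ᵐ ω ∂(Q205.RP.P d), _
    filter_upwards [hae] with ω hω
    obtain ⟨K, hK⟩ := hω
    refine ⟨K, fun X => ?_⟩
    refine le_trans ?_ (hK X)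
    have hfin : {x : ℤ | |x| ≤ X ∧ Q205.RP.Closes (U d m r ω) x}.Finite := by
      apply (Q205.RP.ball X).finite_toSet.subset
      intro x hx
      exact Q205.RP.mem_ball.2 hx.1
    have hsub : {x : ℤ | |x| ≤ X ∧ ¬ Tendsto (fun n : ℕ => |(U d m r ω)^[n] x|) atTop atTop} ⊆
        {x : ℤ | |x| ≤ X ∧ Q205.RP.Closes (U d m r ω) x} := by
      rintro x ⟨h1, h2⟩
      refine ⟨h1, ?_⟩
      by_contra hcon
      exact h2 (diverges_of_not_closes _ hcon)
    have := Set.ncard_le_ncard hsub hfin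
    exact_mod_cast this

end Pool.Agent.Results.MP_39d40e_nt.RandomEnvironmentDichotomy
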